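import Mathlib

set_option autoImplicit false

namespace Pool.Agent.Results.MP_8484b9_co.Plateau

open Finset Sum

section defs
variable {V : Type} (G : SimpleGraph V)

/-- Only the identity automorphism preserves every colour class of `c`. -/
def IsDist {d : ℕ} (c : V → Fin d) : Prop :=
  ∀ φ : G ≃g G, (∀ v, c (φ v) = c v) → ∀ v, φ v = v

/-- The distinguishing number. -/
noncomputable def distNum : ℕ := sInf {d | ∃ c : V → Fin d, IsDist G c}

/-- The fixing number. -/
noncomputable def fixNum : ℕ :=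
  sInf {m | ∃ S : Set V, (∀ φ : G ≃g G, (∀ v ∈ S, φ v = v) → ∀ v, φ v = v) ∧ S.ncard = m}

/-- The paint cost with `d` colours. -/
noncomputable def paint (d : ℕ) : ℕ :=
  sInf {m | ∃ (c : V → Fin d) (i : Fin d), IsDist G c ∧ {v | c v ≠ i}.ncard = m}

/-- The frugal distinguishing number. -/
noncomputable def frugal : ℕ := sInf {d | distNum G ≤ d ∧ paint G d = fixNum G}

end defs

abbrev W : Type := Fin 8 ⊕ Finset (Fin 8)

def G0 : SimpleGraph W where
  Adj x y := match x, y with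
    | inl p, inr s => p ∈ s
    | inr s, inl p => p ∈ s
    | _, _ => False
  symm := ⟨by rintro (p | s) (q | t) h <;> exact h⟩
  loopless := ⟨by rintro (p | s) h <;> exact h⟩

def act (π : Equiv.Perm (Fin 8)) : G0 ≃g G0 where
  toEquiv := Equiv.sumCongr π π.finsetCongr
  map_rel_iff' := by rintro (p | s) (q | t) <;> simp [G0]

lemma act_inl (π : Equiv.Perm (Fin 8)) (p : Fin 8) : act π (inl p) = inl (π p) := rfl

lemma act_inr (π : Equiv.Perm (Fin 8)) (s t : Finset (Fin 8)) (h : ∀ p, π p ∈ t ↔ p ∈ s) :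
    act π (inr s) = inr t := by
  show inr (s.map π.toEmbedding) = inr t
  congr 1; ext q
  rw [mem_map_equiv, ← h]; simp

lemma deg (φ : G0 ≃g G0) (v : W) : (G0.neighborSet (φ v)).ncard = (G0.neighborSet v).ncard :=
  (Set.ncard_congr' (φ.mapNeighborSet v)).symm

lemma deg_inr (s : Finset (Fin 8)) : (G0.neighborSet (inr s)).ncard = s.card := by
  have : G0.neighborSet (inr s) = inl '' (s : Set (Fin 8)) := by
    ext (p | t) <;> simp [G0]
  rw [this, Set.ncard_image_of_injective _ inl_injective, Set.ncard_coe_finset]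

lemma deg_inl (p : Fin 8) : (G0.neighborSet (inl p)).ncard = 128 := by
  have : G0.neighborSet (inl p) = inr '' ((univ.filter fun s : Finset (Fin 8) => p ∈ s :
      Finset (Finset (Fin 8))) : Set (Finset (Fin 8))) := by
    ext (q | t) <;> simp [G0]
  rw [this, Set.ncard_image_of_injective _ inr_injective, Set.ncard_coe_finset]
  clear this; revert p; decide +kernel

lemma map_inr (φ : G0 ≃g G0) (s : Finset (Fin 8)) : ∃ t, φ (inr s) = inr t ∧ t.card = s.card := by
  have h := deg φ (inr s)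
  have h8 : s.card ≤ 8 := card_le_univ s
  rcases e : φ (inr s) with p | t <;> rw [e] at h
  · rw [deg_inl, deg_inr] at h; omega
  · exact ⟨t, rfl, by rwa [deg_inr, deg_inr] at h⟩

lemma rigid (φ : G0 ≃g G0) (F : Finset (Finset (Fin 8))) (hF : ∀ s ∈ F, φ (inr s) = inr s)
    (sep : ∀ p q : Fin 8, (∀ s ∈ F, p ∈ s ↔ q ∈ s) → p = q) : ∀ v, φ v = v := by
  have h1 : ∀ p, φ (inl p) = inl p := fun p => by
    have h := deg φ (inl p)
    rcases e : φ (inl p) with q | t <;> rw [e] at h
    · congr 1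
      refine sep _ _ fun s hs => ?_
      have := φ.map_rel_iff (a := inl p) (b := inr s)
      rw [e, hF s hs] at this
      exact this
    · have h8 : t.card ≤ 8 := card_le_univ t
      rw [deg_inl, deg_inr] at h; omega
  rintro (p | s)
  · exact h1 p
  · obtain ⟨t, e, -⟩ := map_inr φ s
    rw [e]; congr 1; ext p
    have := φ.map_rel_iff (a := inl p) (b := inr s)
    rw [e, h1] at this
    exact this

def A : W → Finset (Fin 8)
  | inl p => {p}
  | inr s => s

lemma swap_fix (p q : Fin 8) (v : W) (h : p ∈ A v ↔ q ∈ A v) (hpq : p ≠ q) :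
    act (Equiv.swap p q) v = v := by
  rcases v with r | s
  · simp only [A, mem_singleton] at h
    rw [act_inl, Equiv.swap_apply_of_ne_of_ne]
    · rintro rfl; exact hpq (h.1 rfl).symm
    · rintro rfl; exact hpq (h.2 rfl)
  · refine act_inr _ _ _ fun x => ?_
    simp only [A] at h
    rw [Equiv.swap_apply_def]
    split_ifs with h1 h2
    · rw [h1, h]
    · rw [h2, h]
    · rfl

lemma swap_ne (p q : Fin 8) (hpq : p ≠ q) : act (Equiv.swap p q) (inl p) ≠ inl p := by
  rw [act_inl]; simpa using hpq.symm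

def pat (u v w : W) (p : Fin 8) : Bool × Bool × Bool := (p ∈ A u, p ∈ A v, p ∈ A w)

lemma noninj (u v w : W) (h : ¬ Function.Injective (pat u v w)) :
    ∃ φ : G0 ≃g G0, φ u = u ∧ φ v = v ∧ φ w = w ∧ ¬ ∀ x, φ x = x := by
  obtain ⟨p, q, h1, h2⟩ := Function.not_injective_iff.1 h
  simp only [pat, Prod.mk.injEq, decide_eq_decide] at h1
  exact ⟨_, swap_fix p q u h1.1 h2, swap_fix p q v h1.2.1 h2, swap_fix p q w h1.2.2 h2,
    fun h => swap_ne p q h2 (h _)⟩

lemma three (u v w : W) : ∃ φ : G0 ≃g G0, φ w = w ∧ (φ u = u ∧ φ v = v ∨ φ u = v ∧ φ v = u) ∧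
    ¬ ∀ x, φ x = x := by
  by_cases h : Function.Injective (pat u v w)
  swap
  · obtain ⟨φ, h1, h2, h3, h4⟩ := noninj u v w h
    exact ⟨φ, h3, Or.inl ⟨h1, h2⟩, h4⟩
  have hb : Function.Bijective (pat u v w) :=
    (Fintype.bijective_iff_injective_and_card _).2 ⟨h, by simp⟩
  let e := Equiv.ofBijective _ hb
  let τ : Equiv.Perm (Bool × Bool × Bool) :=
    ⟨fun x => (x.2.1, x.1, x.2.2), fun x => (x.2.1, x.1, x.2.2), fun _ => rfl, fun _ => rfl⟩
  let π : Equiv.Perm (Fin 8) := (e.trans τ).trans e.symm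
  have hπ : ∀ p, (π p ∈ A u ↔ p ∈ A v) ∧ (π p ∈ A v ↔ p ∈ A u) ∧ (π p ∈ A w ↔ p ∈ A w) := by
    intro p
    have : pat u v w (π p) = τ (pat u v w p) := e.apply_symm_apply _
    simpa [pat, τ] using this
  obtain ⟨a, ha⟩ := hb.2 (true, true, true)
  obtain ⟨b, hb1⟩ := hb.2 (true, false, true)
  obtain ⟨c, hc⟩ := hb.2 (false, true, true)
  have hab : a ≠ b := by rintro rfl; simp [ha] at hb1
  have hac : a ≠ c := by rintro rfl; simp [ha] at hc
  simp only [pat, Prod.mk.injEq, decide_eq_true_eq, decide_eq_false_iff_not] at ha hb1 hc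
  have big : ∀ (x : W) (y z : Fin 8), y ≠ z → y ∈ A x → z ∈ A x → x = inr (A x) := by
    rintro (r | s) y z h1 h2 h3
    · simp only [A, mem_singleton] at h2 h3
      exact absurd (h2.trans h3.symm) h1
    · rfl
  have eu := big u a b hab ha.1 hb1.1
  have ev := big v a c hac ha.2.1 hc.2.1
  have ew := big w a b hab ha.2.2 hb1.2.2
  refine ⟨act π, ?_, Or.inr ⟨?_, ?_⟩, fun h => ?_⟩
  · rw [ew]; exact act_inr _ _ _ fun p => (hπ p).2.2
  · rw [eu, ev]; exact act_inr _ _ _ fun p => (hπ p).2.1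
  · rw [eu, ev]; exact act_inr _ _ _ fun p => (hπ p).1
  · have h1 : π b = b := inl_injective (h (inl b))
    have := (hπ b).1
    rw [h1] at this
    exact hb1.2.1 (this.1 hb1.1)

lemma cover2 (S : Set W) (h : S.ncard ≤ 2) : ∃ u w, S ⊆ {u, w} := by
  have hf : S.Finite := Set.toFinite S
  rcases (by omega : S.ncard = 0 ∨ S.ncard = 1 ∨ S.ncard = 2) with h | h | h
  · rw [(Set.ncard_eq_zero hf).1 h]; exact ⟨inl 0, inl 0, Set.empty_subset _⟩
  · obtain ⟨a, rfl⟩ := Set.ncard_eq_one.1 h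
    exact ⟨a, a, by simp⟩
  · obtain ⟨a, b, -, rfl⟩ := Set.ncard_eq_two.1 h
    exact ⟨a, b, subset_rfl⟩

lemma notDist {d : ℕ} (c : W → Fin d) (i : Fin d) (u v w : W) (huv : c u = c v)
    (hS : {x | c x ≠ i} ⊆ {u, v, w}) : ¬ IsDist G0 c := by
  intro hc
  obtain ⟨φ, h1, h2, h3⟩ := three u v w
  refine h3 (hc φ fun x => ?_)
  have hu : c (φ u) = c u := by rcases h2 with h | h <;> simp [h.1, huv]
  have hv : c (φ v) = c v := by rcases h2 with h | h <;> simp [h.2, huv]
  by_cases hx : x ∈ ({u, v, w} : Set W)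
  · rcases hx with rfl | rfl | rfl
    · exact hu
    · exact hv
    · rw [h1]
  · have hx' : φ x ∉ ({u, v, w} : Set W) := by
      intro h
      apply hx
      rcases h with h | h | h
      · rcases h2 with h' | h'
        · exact Or.inl (φ.injective (h.trans h'.1.symm))
        · exact Or.inr (Or.inl (φ.injective (h.trans h'.2.symm)))
      · rcases h2 with h' | h'
        · exact Or.inr (Or.inl (φ.injective (h.trans h'.2.symm)))
        · exact Or.inl (φ.injective (h.trans h'.1.symm))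
      · exact Or.inr (Or.inr (φ.injective (h.trans h1.symm)))
    have e1 : c x = i := by by_contra h; exact hx (hS h)
    have e2 : c (φ x) = i := by by_contra h; exact hx' (hS h)
    rw [e1, e2]

lemma low3 {d : ℕ} (c : W → Fin d) (i : Fin d) (hc : IsDist G0 c) : 3 ≤ {x | c x ≠ i}.ncard := by
  by_contra h
  obtain ⟨u, w, hS⟩ := cover2 {x | c x ≠ i} (by omega)
  exact notDist c i u u w rfl (by simpa using hS) hc

lemma low4 {d : ℕ} (hd : d ≤ 3) (c : W → Fin d) (i : Fin d) (hc : IsDist G0 c) :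
    4 ≤ {x | c x ≠ i}.ncard := by
  by_contra h
  obtain ⟨u, v, w, -, -, -, hS⟩ := Set.ncard_eq_three.1
    (show {x | c x ≠ i}.ncard = 3 by have := low3 c i hc; omega)
  have hu : c u ≠ i := by show u ∈ {x | c x ≠ i}; simp [hS]
  have hv : c v ≠ i := by show v ∈ {x | c x ≠ i}; simp [hS]
  have hw : c w ≠ i := by show w ∈ {x | c x ≠ i}; simp [hS]
  have : c u = c v ∨ c u = c w ∨ c v = c w := by
    have := (c u).2
    have := (c v).2
    have := (c w).2
    have := i.2
    simp only [Ne, Fin.ext_iff] at hu hv hw ⊢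
    omega
  rcases this with h | h | h
  · exact notDist c i u v w h hS.subset hc
  · exact notDist c i u w v h (by rw [hS]; intro x; simp only [Set.mem_insert_iff, Set.mem_singleton_iff]; tauto) hc
  · exact notDist c i v w u h (by rw [hS]; intro x; simp only [Set.mem_insert_iff, Set.mem_singleton_iff]; tauto) hc

def F4 : Finset (Finset (Fin 8)) := {{1, 3, 5, 6, 7}, {2, 3, 6, 7}, {4, 5, 6}, {7}}

def F3 : Finset (Finset (Fin 8)) := {{1, 3, 5, 7}, {2, 3, 6, 7}, {4, 5, 6, 7}}

lemma up4 (d : ℕ) : ∃ (c : W → Fin (d + 2)) (i : Fin (d + 2)), IsDist G0 c ∧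
    {v | c v ≠ i}.ncard = 4 := by
  refine ⟨fun v => if v ∈ F4.image inr then 1 else 0, 0, fun φ h => ?_, ?_⟩
  · refine rigid φ F4 (fun s hs => ?_) (by decide +kernel)
    obtain ⟨t, e, ht⟩ := map_inr φ s
    have h1 := h (inr s)
    rw [e] at h1 ⊢
    have h2 : t ∈ F4 := by
      by_contra h3
      simp [hs, h3] at h1
    have key : ∀ s ∈ F4, ∀ t ∈ F4, t.card = s.card → t = s := by decide +kernel
    rw [key s hs t h2 ht]
  · have : {v : W | (if v ∈ F4.image inr then (1 : Fin (d + 2)) else 0) ≠ 0} =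
        (F4.image inr : Finset W) := by ext v; simp
    rw [this, Set.ncard_coe_finset]; decide +kernel

def c4 (v : W) : Fin 4 :=
  if v = inr {1, 3, 5, 7} then 1 else if v = inr {2, 3, 6, 7} then 2 else
    if v = inr {4, 5, 6, 7} then 3 else 0

theorem result : ∃ (V : Type) (_ : Finite V) (G : SimpleGraph V),
    paint G (distNum G) = paint G (distNum G + 1) ∧ paint G (distNum G) ≠ fixNum G ∧
      distNum G + 1 < frugal G := by
  have hD : distNum G0 = 2 := by
    obtain ⟨c, i, hc, -⟩ := up4 0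
    refine le_antisymm (Nat.sInf_le ⟨c, hc⟩) (le_csInf ⟨2, c, hc⟩ ?_)
    rintro d ⟨c, hc⟩
    by_contra hd
    refine swap_ne 0 1 (by decide) (hc _ (fun v => ?_) _)
    have := (c v).2
    have := (c (act (Equiv.swap 0 1) v)).2
    ext; omega
  have hp : ∀ d, d + 2 ≤ 3 → paint G0 (d + 2) = 4 := fun d hd =>
    le_antisymm (Nat.sInf_le (up4 d))
      (le_csInf ⟨4, up4 d⟩ (by rintro _ ⟨c, i, hc, rfl⟩; exact low4 hd c i hc))
  have fx : ∀ φ : G0 ≃g G0, (∀ v ∈ ((F3.image inr : Finset W) : Set W), φ v = v) → ∀ v, φ v = v :=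
    fun φ h => rigid φ F3 (fun s hs => h _ (by simpa using hs)) (by decide +kernel)
  have c3 : ((F3.image inr : Finset W) : Set W).ncard = 3 := by
    rw [Set.ncard_coe_finset]; decide +kernel
  have hF : fixNum G0 = 3 := by
    refine le_antisymm (Nat.sInf_le ⟨_, fx, c3⟩) (le_csInf ⟨3, _, fx, c3⟩ ?_)
    rintro _ ⟨S, hS, rfl⟩
    by_contra h
    obtain ⟨u, w, h1⟩ := cover2 S (by omega)
    obtain ⟨φ, h2, h3, h4⟩ := three u u w
    refine h4 (hS φ fun v hv => ?_)
    rcases h1 hv with rfl | rfl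
    · rcases h3 with h | h <;> exact h.1
    · exact h2
  have m4 : ∃ (c : W → Fin 4) (i : Fin 4), IsDist G0 c ∧ {v | c v ≠ i}.ncard = 3 := by
    have k1 : ∀ v w : W, v ∈ F3.image inr → c4 w = c4 v → w = v := by decide +kernel
    have k2 : ∀ v : W, c4 v ≠ 0 ↔ v ∈ F3.image inr := by decide +kernel
    refine ⟨c4, 0, fun φ h => fx φ fun v hv => k1 v _ (by simpa using hv) (h v), ?_⟩
    refine Eq.trans ?_ c3; congr 1; ext v; simpa using k2 v
  have hp4 : paint G0 4 = 3 := le_antisymm (Nat.sInf_le m4)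
    (le_csInf ⟨3, m4⟩ (by rintro _ ⟨c, i, hc, rfl⟩; exact low3 c i hc))
  have h2 : paint G0 2 = 4 := hp 0 (by norm_num)
  have h3 : paint G0 3 = 4 := hp 1 (by norm_num)
  refine ⟨W, inferInstance, G0, by rw [hD, h2, h3], by rw [hD, h2, hF]; norm_num, ?_⟩
  rw [hD]
  show 4 ≤ sInf {d | distNum G0 ≤ d ∧ paint G0 d = fixNum G0}
  refine le_csInf ⟨4, by rw [hD]; norm_num, by rw [hp4, hF]⟩ ?_
  rintro d ⟨hd1, hd2⟩
  rw [hD] at hd1
  by_contra h
  rcases (by omega : d = 2 ∨ d = 3) with rfl | rfl <;> omega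

end Pool.Agent.Results.MP_8484b9_co.Plateau
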